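import Mathlib

set_option autoImplicit false

namespace Pool.Agent.Results.MP_3af439_nt.Counter

open Finset

/-- the generalized totient `φ_3` -/
def phi3 (n : ℕ) : ℕ := ((Icc 1 (n / 3)).filter (fun i => Nat.gcd i n = 1)).card

/-- inclusion-exclusion -/
def c (m : ℕ) : List ℕ → ℕ → ℕ
  | [], d => m / d
  | p :: L, d => c m L d - c m L (Nat.lcm d p)

lemma c_eq (m : ℕ) (L : List ℕ) : ∀ d, c m L d
    = ((Ioc 0 m).filter (fun i => d ∣ i ∧ ∀ p ∈ L, ¬ p ∣ i)).card := by
  induction L with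
  | nil => intro d; simp [c, Nat.Ioc_filter_dvd_card_eq_div]
  | cons p L ih =>
    intro d
    have h := card_filter_add_card_filter_not
      (s := (Ioc 0 m).filter (fun i => d ∣ i ∧ ∀ p ∈ L, ¬ p ∣ i)) (fun i => p ∣ i)
    rw [c, ih, ih, ← h, filter_filter, filter_filter]
    refine Nat.sub_eq_of_eq_add ?_
    rw [add_comm]
    congr 2 <;> refine filter_congr fun i _ => ?_
    · simp only [List.forall_mem_cons]; tauto
    · rw [Nat.lcm_dvd_iff]; tauto

theorem result : ¬ ∀ n : ℕ, 4 ≤ n → ¬ n.Prime →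
    n ∉ ({4, 6, 8, 9, 12, 16, 21, 65, 425, 1729, 3201, 3531, 22865} : Finset ℕ) →
    ¬ phi3 n ∣ n - 1 := by
  intro h
  refine h 4125441 (by norm_num) (by norm_num) (by decide) ?_
  have h1 : c 1375147 [3, 17, 23, 3517] 1 = 825088 := by decide +kernel
  have h2 : phi3 4125441 = 825088 := by
    rw [← h1, c_eq]
    have : Icc 1 (4125441 / 3) = Ioc 0 1375147 := by
      ext i; simp only [mem_Icc, mem_Ioc]; omega
    rw [phi3, this]
    refine congrArg card (filter_congr fun i _ => ?_)
    have e : ∀ p : ℕ, p.Prime → (Nat.Coprime i p ↔ ¬ p ∣ i) := fun p hp =>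
      Nat.coprime_comm.trans hp.coprime_iff_not_dvd
    rw [← Nat.coprime_iff_gcd_eq_one, show 4125441 = 3 * (17 * (23 * 3517)) by norm_num,
      Nat.coprime_mul_iff_right, Nat.coprime_mul_iff_right, Nat.coprime_mul_iff_right,
      e 3 (by norm_num), e 17 (by norm_num), e 23 (by norm_num), e 3517 (by norm_num)]
    simp
  rw [h2]; norm_num

end Pool.Agent.Results.MP_3af439_nt.Counter
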